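import Pool.Agent.W2helper43.BD.Stm

/-!
Project BD, piece BLK: `F b` is a block.
-/

set_option autoImplicit false
set_option linter.unusedSectionVars false

open Pool.Agent.W2helper43.BD

namespace Pool.Agent.W2helper60.BD

theorem conj_one' {k Γ : Type} [CommRing k] [Group Γ] (r : MonoidAlgebra k Γ) :
    conj (1 : Γ) r = r := by
  rw [conj, inv_one, ← MonoidAlgebra.one_def, one_mul, mul_one]

theorem mul_conj_central {k Γ : Type} [CommRing k] [Group Γ] (d r : MonoidAlgebra k Γ)
    (hd : ∀ x, d * x = x * d) (γ : Γ) : d * conj γ r = conj γ (d * r) := by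
  rw [conj, conj, ← mul_assoc, ← mul_assoc, hd, mul_assoc (MonoidAlgebra.single γ (1 : k)) d r]

theorem p_blk : P_BLK := by
  intro hE hPHI hCOEF hCONJ Λ V G Γ _ _ _ _ _ _ _ D b hb
  obtain ⟨hb0, hbi, hbc, hbp⟩ := hb
  obtain ⟨inj, fmul, fadd, f1, fim⟩ := hPHI hE hCOEF D
  obtain ⟨c1, c2, c3, c4, c5, c6⟩ := hCONJ hE hPHI hCOEF D b hbi hbc
  obtain ⟨e1, e2, e3, e4, e5⟩ := hE D
  have f0 : D.f 0 = 0 := by
    have h := fadd 0 0
    rw [add_zero] at h
    exact left_eq_add.1 h
  have Ff : D.F b * D.f b = D.f b := by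
    have h := c6 1
    rwa [conj_one'] at h
  have ff : D.f b * D.f b = D.f b := by rw [fmul, hbi]
  have ef : D.e * D.f b = D.f b := by
    rw [Dat.f, e4, ← mul_assoc, e1]
  have fe : D.f b * D.e = D.f b := by
    rw [Dat.f, mul_assoc, e1]
  refine ⟨fun h => ?_, c5, c4, fun d hdi hdc hdF => ?_⟩
  · rw [h, zero_mul] at Ff
    exact hb0 (inj (by rw [f0, ← Ff]))
  · obtain ⟨a, ha⟩ := fim (d * D.f b)
    have hda : d * D.f b = D.f a := by
      rw [← ha, ← mul_assoc, ← hdc, mul_assoc d, ef, mul_assoc, fe]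
    have dfdf : D.f a * D.f a = D.f a := by
      rw [← hda, mul_assoc, ← mul_assoc (D.f b) d, ← hdc, mul_assoc d (D.f b), ff, ← mul_assoc,
        hdi]
    have ai : IsIdempotentElem a := inj (by rw [← fmul, dfdf])
    have ab : a * b = a := inj (by rw [← fmul, ← hda, mul_assoc, ff])
    have ac : ∀ x, a * x = x * a := by
      intro x
      apply inj
      rw [← fmul, ← fmul, ← hda, mul_assoc, fmul, hbc, ← fmul, ← mul_assoc, hdc, mul_assoc]
    have : Fintype (Γ ⧸ D.I) := Fintype.ofFinite _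
    rcases hbp a ai ac ab with h | h
    · left
      rw [h, f0] at hda
      rw [← hdF, D.F_eq, Finset.mul_sum]
      refine Finset.sum_eq_zero fun x _ => ?_
      rw [mul_conj_central d _ hdc, hda, conj, mul_zero, zero_mul]
    · right
      rw [h] at hda
      rw [← hdF, D.F_eq, Finset.mul_sum]
      refine Finset.sum_congr rfl fun x _ => ?_
      rw [mul_conj_central d _ hdc, hda]

end Pool.Agent.W2helper60.BD
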