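import Pool.Agent.W2helper43.BD.Stm

/-!
Project BD, piece E: elementary properties of the idempotent of a linear character.
-/

set_option autoImplicit false
set_option linter.unusedSectionVars false

open Pool.Agent.W2helper43.BD

namespace Pool.Agent.W2helper60.BD

section

variable {Λ V G Γ : Type} [CommRing Λ] [Group V] [Group G] [Group Γ] [Fintype V]

theorem theta_inv (D : Dat Λ V G Γ) (v : V) : D.θ v * D.θ v⁻¹ = 1 := by
  rw [← map_mul, mul_inv_cancel, map_one]

theorem left_mul (D : Dat Λ V G Γ) (v : V) :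
    MonoidAlgebra.single (D.iV v) 1 * D.e = D.θ v • D.e := by
  rw [D.e_eq, Finset.mul_sum, Finset.smul_sum,
    ← Equiv.sum_comp (Equiv.mulLeft v) (fun w => D.θ v • MonoidAlgebra.single (D.iV w)
      (D.c * D.θ w⁻¹))]
  refine Finset.sum_congr rfl fun w _ => ?_
  rw [MonoidAlgebra.single_mul_single, MonoidAlgebra.smul_single', Equiv.coe_mulLeft, map_mul,
    mul_inv_rev, map_mul]
  congr 1
  linear_combination (- D.c * D.θ w⁻¹) * theta_inv D v

theorem right_mul (D : Dat Λ V G Γ) (v : V) :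
    D.e * MonoidAlgebra.single (D.iV v) 1 = D.θ v • D.e := by
  rw [D.e_eq, Finset.sum_mul, Finset.smul_sum,
    ← Equiv.sum_comp (Equiv.mulRight v) (fun w => D.θ v • MonoidAlgebra.single (D.iV w)
      (D.c * D.θ w⁻¹))]
  refine Finset.sum_congr rfl fun w _ => ?_
  rw [MonoidAlgebra.single_mul_single, MonoidAlgebra.smul_single', Equiv.coe_mulRight, map_mul,
    mul_inv_rev, map_mul]
  congr 1
  linear_combination (- D.c * D.θ w⁻¹) * theta_inv D v

theorem idem (D : Dat Λ V G Γ) : IsIdempotentElem D.e := by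
  have h : D.e * D.e = ∑ v : V, (D.c * D.θ v⁻¹) • (MonoidAlgebra.single (D.iV v) 1 * D.e) := by
    conv_lhs => rw [D.e_eq, Finset.sum_mul, ← D.e_eq]
    refine Finset.sum_congr rfl fun v _ => ?_
    rw [← smul_mul_assoc, MonoidAlgebra.smul_single', mul_one]
  rw [IsIdempotentElem, h]
  have h2 : ∀ v ∈ (Finset.univ : Finset V),
      (D.c * D.θ v⁻¹) • (MonoidAlgebra.single (D.iV v) 1 * D.e) = D.c • D.e := by
    intro v _
    rw [left_mul, smul_smul]
    congr 1
    linear_combination D.c * theta_inv D v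
  rw [Finset.sum_congr rfl h2, Finset.sum_const, Finset.card_univ, ← Nat.cast_smul_eq_nsmul Λ,
    smul_smul, ← Nat.card_eq_fintype_card, mul_comm, D.hc, one_smul]

/-- conjugation by `iG g` on `V` -/
noncomputable def act (D : Dat Λ V G Γ) (g : G) (v : V) : V :=
  (D.normal (D.iG g) v).choose

theorem act_spec (D : Dat Λ V G Γ) (g : G) (v : V) :
    D.iV (act D g v) = D.iG g * D.iV v * (D.iG g)⁻¹ :=
  (D.normal (D.iG g) v).choose_spec

theorem act_bij (D : Dat Λ V G Γ) (g : G) : Function.Bijective (act D g) := by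
  rw [← Finite.injective_iff_bijective]
  intro v w h
  apply D.injV
  have h1 := act_spec D g v
  rw [h, act_spec] at h1
  exact (mul_left_cancel (mul_right_cancel h1)).symm

theorem act_inv (D : Dat Λ V G Γ) (g : G) (v : V) :
    D.θ (act D g v)⁻¹ = D.θ v⁻¹ := by
  apply D.inv g
  rw [map_inv, act_spec, map_inv]
  group

theorem comm_single (D : Dat Λ V G Γ) (g : G) (x : Λ) :
    MonoidAlgebra.single (D.iG g) x * D.e = D.e * MonoidAlgebra.single (D.iG g) x := by
  rw [D.e_eq, Finset.mul_sum, Finset.sum_mul,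
    ← Equiv.sum_comp (Equiv.ofBijective _ (act_bij D g)) (fun w => MonoidAlgebra.single (D.iV w)
      (D.c * D.θ w⁻¹) * MonoidAlgebra.single (D.iG g) x)]
  refine Finset.sum_congr rfl fun v _ => ?_
  rw [MonoidAlgebra.single_mul_single, MonoidAlgebra.single_mul_single, Equiv.ofBijective_apply,
    act_spec, act_inv, inv_mul_cancel_right, mul_comm x]

theorem comm_iota (D : Dat Λ V G Γ) (a : MonoidAlgebra Λ G) : D.ι a * D.e = D.e * D.ι a := by
  induction a using MonoidAlgebra.induction_linear with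
  | zero => rw [map_zero, zero_mul, mul_zero]
  | add x y hx hy => rw [map_add, add_mul, mul_add, hx, hy]
  | single g x =>
    have : D.ι (MonoidAlgebra.single g x) = MonoidAlgebra.single (D.iG g) x := by
      simp [Dat.ι]
    rw [this, comm_single]

theorem orth [IsDomain Λ] (D : Dat Λ V G Γ) (γ : Γ) (hγ : γ ∉ D.I) :
    D.e * conj γ D.e = 0 := by
  obtain ⟨w, hw⟩ := D.normal γ D.v0
  have hne : D.θ w ≠ D.θ D.v0 := fun h => hγ (D.sep γ w hw h)
  have h1 : MonoidAlgebra.single (D.iV w) 1 * conj γ D.e = D.θ D.v0 • conj γ D.e := by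
    rw [conj, ← mul_assoc, ← mul_assoc, MonoidAlgebra.single_mul_single, hw, one_mul,
      inv_mul_cancel_right]
    have h2 : MonoidAlgebra.single (γ * D.iV D.v0) (1 : Λ) =
        MonoidAlgebra.single γ 1 * MonoidAlgebra.single (D.iV D.v0) 1 := by
      rw [MonoidAlgebra.single_mul_single, one_mul]
    rw [h2, mul_assoc (MonoidAlgebra.single γ (1 : Λ)), left_mul, mul_smul_comm, smul_mul_assoc]
  have h3 : D.θ w • (D.e * conj γ D.e) = D.θ D.v0 • (D.e * conj γ D.e) := by
    rw [← smul_mul_assoc, ← right_mul, mul_assoc, h1, mul_smul_comm]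
  have h4 : (D.θ w - D.θ D.v0) • (D.e * conj γ D.e) = 0 := by
    rw [sub_smul, h3, sub_self]
  ext δ
  have h5 := congrArg (fun z : MonoidAlgebra Λ Γ => z.coeff δ) h4
  simp only [MonoidAlgebra.coeff_smul_apply, MonoidAlgebra.coeff_zero, Finsupp.coe_zero,
    Pi.zero_apply, smul_eq_mul] at h5
  simpa using (mul_eq_zero.1 h5).resolve_left (sub_ne_zero.2 hne)

end

theorem p_e : P_E := by
  intro Λ V G Γ _ _ _ _ _ _ D
  have := Fintype.ofFinite V
  exact ⟨idem D, left_mul D, right_mul D, comm_iota D, orth D⟩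

end Pool.Agent.W2helper60.BD
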